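import Pool.Agent.H37.CNS.Stmts

/-!
# Row OM1 of the board `cns`: normal elementary abelian subgroups and elements of order `p`
-/

set_option autoImplicit false

namespace Pool.CND

namespace OM1

section gen

variable {Q : Type} [Group Q]

/-- powers of a product of two elements with a central commutator -/
theorem pow_step (s w c : Q) (hc : c ∈ Subgroup.center Q) (h : w * s = c * s * w) (n : ℕ) :
    w ^ n * s = c ^ n * s * w ^ n := by
  induction n with
  | zero => simp
  | succ n ih =>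
    have hcn : ∀ x : Q, x * c ^ n = c ^ n * x := fun x =>
      (Subgroup.mem_center_iff.1 (pow_mem hc n)) x
    rw [pow_succ', mul_assoc, ih, ← mul_assoc, ← mul_assoc, hcn w, mul_assoc (c ^ n) w s, h,
      ← mul_assoc, ← mul_assoc, ← pow_succ, mul_assoc (c ^ (n + 1) * s)]

theorem mul_pow_central (s w c : Q) (hc : c ∈ Subgroup.center Q) (h : w * s = c * s * w) (n : ℕ) :
    (s * w) ^ n = c ^ (n * (n - 1) / 2) * s ^ n * w ^ n := by
  induction n with
  | zero => simp
  | succ n ih =>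
    have hcn : ∀ (m : ℕ) (x : Q), x * c ^ m = c ^ m * x := fun m x =>
      (Subgroup.mem_center_iff.1 (pow_mem hc m)) x
    have hn : (n + 1) * (n + 1 - 1) / 2 = n * (n - 1) / 2 + n := by
      have h1 : (n + 1) * (n + 1 - 1) = n * (n - 1) + 2 * n := by
        cases n with
        | zero => rfl
        | succ m =>
          simp only [Nat.add_sub_cancel]
          ring
      rw [h1, Nat.add_mul_div_left _ _ two_pos]
    rw [pow_succ, ih, hn]
    calc c ^ (n * (n - 1) / 2) * s ^ n * w ^ n * (s * w)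
        = c ^ (n * (n - 1) / 2) * s ^ n * (w ^ n * s) * w := by simp only [mul_assoc]
      _ = c ^ (n * (n - 1) / 2) * s ^ n * (c ^ n * s * w ^ n) * w := by
          rw [pow_step s w c hc h]
      _ = c ^ (n * (n - 1) / 2) * (s ^ n * c ^ n) * s * w ^ n * w := by simp only [mul_assoc]
      _ = c ^ (n * (n - 1) / 2) * (c ^ n * s ^ n) * s * w ^ n * w := by rw [hcn]
      _ = (c ^ (n * (n - 1) / 2) * c ^ n) * (s ^ n * s) * (w ^ n * w) := by
          simp only [mul_assoc]
      _ = c ^ (n * (n - 1) / 2 + n) * s ^ (n + 1) * w ^ (n + 1) := by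
          rw [← pow_add, ← pow_succ, ← pow_succ]

theorem mul_pow_prime {p : ℕ} (hp : p.Prime) (hp2 : p ≠ 2) (s w c : Q)
    (hc : c ∈ Subgroup.center Q) (hcp : c ^ p = 1) (h : w * s = c * s * w) :
    (s * w) ^ p = s ^ p * w ^ p := by
  rw [mul_pow_central s w c hc h]
  have h1 : p * (p - 1) / 2 = p * ((p - 1) / 2) := by
    have h2 : 2 ∣ p - 1 := by
      have := hp.odd_of_ne_two hp2
      obtain ⟨m, hm⟩ := this
      exact ⟨m, by omega⟩
    exact Nat.mul_div_assoc p h2
  rw [h1, pow_mul, hcp, one_pow, one_mul]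

/-- the central elements of order dividing `p` -/
def om (Q : Type) [Group Q] (p : ℕ) : Subgroup Q where
  carrier := {z | z ∈ Subgroup.center Q ∧ z ^ p = 1}
  mul_mem' := fun {a b} ha hb => by
    refine ⟨mul_mem ha.1 hb.1, ?_⟩
    have h1 : Commute a b := ((Subgroup.mem_center_iff.1 ha.1) b).symm
    rw [h1.mul_pow, ha.2, hb.2, one_mul]
  one_mem' := ⟨one_mem _, one_pow _⟩
  inv_mem' := fun {a} ha => ⟨inv_mem ha.1, by rw [inv_pow, ha.2, inv_one]⟩

theorem mem_om {p : ℕ} {z : Q} : z ∈ om Q p ↔ z ∈ Subgroup.center Q ∧ z ^ p = 1 := Iff.rfl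

instance om_normal (p : ℕ) : (om Q p).Normal where
  conj_mem := fun z hz g => by
    have h1 : g * z * g⁻¹ = z := by
      rw [(Subgroup.mem_center_iff.1 hz.1) g, mul_inv_cancel_right]
    rw [h1]
    exact hz

end gen

section ser

variable (G : Type) [Group G] (p : ℕ)

/-- the series `S 0 = 1`, `S (n + 1) / S n` = the central elements of order dividing `p` -/
def ser : ℕ → {N : Subgroup G // N.Normal}
  | 0 => ⟨⊥, inferInstance⟩
  | n + 1 =>
    have := (ser n).2
    ⟨(om (G ⧸ (ser n).1) p).comap (QuotientGroup.mk' (ser n).1), inferInstance⟩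

instance ser_normal (n : ℕ) : (ser G p n).1.Normal := (ser G p n).2

variable {G p}

theorem mem_ser_succ (n : ℕ) (w : G) : w ∈ (ser G p (n + 1)).1 ↔
    (∀ g : G, g * w * g⁻¹ * w⁻¹ ∈ (ser G p n).1) ∧ w ^ p ∈ (ser G p n).1 := by
  have h1 : w ∈ (ser G p (n + 1)).1 ↔ (w : G ⧸ (ser G p n).1) ∈ om (G ⧸ (ser G p n).1) p := Iff.rfl
  rw [h1, mem_om, ← QuotientGroup.mk_pow, QuotientGroup.eq_one_iff, Subgroup.mem_center_iff]
  refine and_congr_left fun _ => ⟨fun h g => ?_, fun h q => ?_⟩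
  · rw [← QuotientGroup.eq_one_iff, QuotientGroup.mk_mul, QuotientGroup.mk_mul,
      QuotientGroup.mk_mul, QuotientGroup.mk_inv, QuotientGroup.mk_inv, h g]
    group
  · obtain ⟨g, rfl⟩ := QuotientGroup.mk_surjective q
    have h2 := (QuotientGroup.eq_one_iff _).2 (h g)
    rw [QuotientGroup.mk_mul, QuotientGroup.mk_mul, QuotientGroup.mk_mul, QuotientGroup.mk_inv,
      QuotientGroup.mk_inv, mul_inv_eq_one, mul_inv_eq_iff_eq_mul] at h2
    exact h2

theorem ser_mono (n : ℕ) : (ser G p n).1 ≤ (ser G p (n + 1)).1 := by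
  intro w hw
  rw [mem_ser_succ]
  refine ⟨fun g => ?_, pow_mem hw p⟩
  exact mul_mem ((ser_normal G p n).conj_mem w hw g) (inv_mem hw)

theorem mem_ser_one (w : G) : w ∈ (ser G p 1).1 ↔ w ∈ Subgroup.center G ∧ w ^ p = 1 := by
  rw [mem_ser_succ]
  have h0 : (ser G p 0).1 = ⊥ := rfl
  simp only [h0, Subgroup.mem_bot]
  rw [Subgroup.mem_center_iff]
  refine and_congr_left fun _ => forall_congr' fun g => ?_
  rw [mul_inv_eq_one, mul_inv_eq_iff_eq_mul]

/-- the series reaches the whole group -/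
theorem exists_top [Finite G] (hp : p.Prime) (hG : IsPGroup p G) :
    ∃ n, (ser G p n).1 = ⊤ := by
  have := Fact.mk hp
  have hlt : ∀ n, (ser G p n).1 ≠ ⊤ → (ser G p n).1 < (ser G p (n + 1)).1 := by
    intro n hn
    refine lt_of_le_of_ne (ser_mono n) fun he => ?_
    have hQ : IsPGroup p (G ⧸ (ser G p n).1) := hG.to_quotient _
    have hnt : Nontrivial (G ⧸ (ser G p n).1) := by
      by_contra h
      rw [not_nontrivial_iff_subsingleton] at h
      exact hn (QuotientGroup.subgroup_eq_top_of_subsingleton _ h)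
    have hc : Nontrivial (Subgroup.center (G ⧸ (ser G p n).1)) := hQ.center_nontrivial
    have hcp : IsPGroup p (Subgroup.center (G ⧸ (ser G p n).1)) := hQ.to_subgroup _
    have hdvd : p ∣ Nat.card (Subgroup.center (G ⧸ (ser G p n).1)) := by
      obtain ⟨m, hm0, hm⟩ := (IsPGroup.nontrivial_iff_card hcp).1 hc
      rw [hm]
      exact dvd_pow_self p hm0.ne'
    obtain ⟨z, hz⟩ := exists_prime_orderOf_dvd_card' p hdvd
    obtain ⟨w, hw⟩ := QuotientGroup.mk_surjective (z : G ⧸ (ser G p n).1)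
    have h1 : w ∈ (ser G p (n + 1)).1 := by
      show (w : G ⧸ (ser G p n).1) ∈ om (G ⧸ (ser G p n).1) p
      rw [hw]
      refine ⟨z.2, ?_⟩
      have h2 : z ^ p = 1 := orderOf_dvd_iff_pow_eq_one.1 (dvd_of_eq hz)
      exact congrArg Subtype.val h2
    rw [← he] at h1
    have h3 : (w : G ⧸ (ser G p n).1) = 1 := (QuotientGroup.eq_one_iff w).2 h1
    rw [hw] at h3
    have h4 : z = 1 := Subtype.ext h3
    rw [h4, orderOf_one] at hz
    exact hp.one_lt.ne hz
  by_contra hcon
  push Not at hcon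
  have hcard : ∀ n, n < Nat.card (ser G p n).1 := by
    intro n
    induction n with
    | zero => exact Nat.card_pos
    | succ n ih =>
      have h1 : Nat.card (ser G p n).1 < Nat.card (ser G p (n + 1)).1 := by
        have := Set.ncard_lt_ncard (hlt n (hcon n)) (Set.toFinite _)
        exact this
      omega
  have h1 := hcard (Nat.card G)
  have h2 : Nat.card (ser G p (Nat.card G)).1 ≤ Nat.card G :=
    Subgroup.card_le_card_group _
  omega

end ser

section main

variable {G : Type} [Group G] {p : ℕ}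

/-- the subgroup generated by `E` (central) and `w` -/
def gen (E : Subgroup G) (hE : E ≤ Subgroup.center G) (w : G) : Subgroup G where
  carrier := {a | ∃ e ∈ E, ∃ i : ℤ, a = e * w ^ i}
  mul_mem' := by
    rintro a b ⟨e, he, i, rfl⟩ ⟨f, hf, j, rfl⟩
    refine ⟨e * f, mul_mem he hf, i + j, ?_⟩
    have h1 := (Subgroup.mem_center_iff.1 (hE hf)) (w ^ i)
    rw [mul_assoc e, ← mul_assoc (w ^ i), h1, zpow_add]
    simp only [mul_assoc]
  one_mem' := ⟨1, one_mem _, 0, by simp⟩
  inv_mem' := by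
    rintro a ⟨e, he, i, rfl⟩
    refine ⟨e⁻¹, inv_mem he, -i, ?_⟩
    have h1 := (Subgroup.mem_center_iff.1 (hE (inv_mem he))) (w ^ i)⁻¹
    rw [mul_inv_rev, h1, zpow_neg]

/-- (a) -/
theorem base (hcon : ∀ E : Subgroup G, E.Normal → EA p E → E ≤ Subgroup.center G) (w : G)
    (hw : w ∈ (ser G p 2).1) (hwp : w ^ p = 1) : w ∈ (ser G p 1).1 := by
  have hE : (ser G p 1).1 ≤ Subgroup.center G := fun z hz => ((mem_ser_one z).1 hz).1
  have hw' := (mem_ser_succ 1 w).1 hw
  have hconj : ∀ g : G, ∃ e ∈ (ser G p 1).1, g * w * g⁻¹ = e * w := fun g =>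
    ⟨_, hw'.1 g, by group⟩
  have hce : ∀ e ∈ (ser G p 1).1, ∀ x : G, x * e = e * x := fun e he x =>
    (Subgroup.mem_center_iff.1 (hE he)) x
  have hN : (gen (ser G p 1).1 hE w).Normal := by
    constructor
    rintro a ⟨e, he, i, rfl⟩ g
    obtain ⟨f, hf, hfg⟩ := hconj g
    refine ⟨e * f ^ i, mul_mem he (zpow_mem hf i), i, ?_⟩
    have h1 : g * (e * w ^ i) * g⁻¹ = e * (g * w * g⁻¹) ^ i := by
      rw [conj_zpow, ← mul_assoc, hce e he g]
      simp only [mul_assoc]
    have h2 : Commute f w := (hce f hf w).symm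
    rw [h1, hfg, h2.mul_zpow, mul_assoc]
  have hEA : EA p (gen (ser G p 1).1 hE w) := by
    refine ⟨?_, ?_⟩
    · rintro a ⟨e, he, i, rfl⟩
      have h1 : Commute e (w ^ i) := (hce e he (w ^ i)).symm
      rw [h1.mul_pow, ((mem_ser_one e).1 he).2, one_mul, ← zpow_natCast, ← zpow_mul, mul_comm,
        zpow_mul, zpow_natCast, hwp, one_zpow]
    · rintro a ⟨e, he, i, rfl⟩ b ⟨f, hf, j, rfl⟩
      have h1 : Commute e (f * w ^ j) := (hce e he (f * w ^ j)).symm
      have h2 : Commute (w ^ i) (f * w ^ j) :=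
        Commute.mul_right (hce f hf (w ^ i)) ((Commute.refl w).zpow_zpow i j)
      exact (h1.mul_left h2).eq
  have h1 := hcon _ hN hEA
  have h2 : w ∈ gen (ser G p 1).1 hE w := ⟨1, one_mem _, 1, by simp⟩
  exact (mem_ser_one w).2 ⟨h1 h2, hwp⟩

/-- the step -/
theorem step (hp : p.Prime) (hp2 : p ≠ 2)
    (hcon : ∀ E : Subgroup G, E.Normal → EA p E → E ≤ Subgroup.center G) (n : ℕ) :
    ∀ w : G, w ∈ (ser G p (n + 2)).1 → w ^ p ∈ (ser G p n).1 → w ∈ (ser G p (n + 1)).1 := by
  induction n with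
  | zero =>
    intro w hw hwp
    exact base hcon w hw hwp
  | succ n ih =>
    intro w hw hwp
    have hw' := (mem_ser_succ (n + 2) w).1 hw
    refine (mem_ser_succ (n + 1) w).2 ⟨fun g => ?_, hwp⟩
    set s := g * w * g⁻¹ * w⁻¹ with hs
    have hs2 : s ∈ (ser G p (n + 2)).1 := hw'.1 g
    refine ih s hs2 ?_
    have h1 : s * w = g * w * g⁻¹ := by
      rw [hs]
      group
    have h2 : ((s * w) ^ p) * (w ^ p)⁻¹ ∈ (ser G p n).1 := by
      rw [h1, conj_pow]
      exact ((mem_ser_succ n (w ^ p)).1 hwp).1 g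
    -- the commutator of `w` and `s`
    set c := w * s * w⁻¹ * s⁻¹ with hcd
    have hc : c ∈ (ser G p (n + 1)).1 := ((mem_ser_succ (n + 1) s).1 hs2).1 w
    have hc' : (c : G ⧸ (ser G p n).1) ∈ om (G ⧸ (ser G p n).1) p := hc
    have h3 : w * s = c * s * w := by
      rw [hcd]
      group
    have h4 := mul_pow_prime hp hp2 (s : G ⧸ (ser G p n).1) (w : G ⧸ (ser G p n).1)
      (c : G ⧸ (ser G p n).1) hc'.1 hc'.2 (by
        rw [← QuotientGroup.mk_mul, ← QuotientGroup.mk_mul, ← QuotientGroup.mk_mul, h3])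
    rw [← QuotientGroup.eq_one_iff] at h2 ⊢
    rw [QuotientGroup.mk_mul, QuotientGroup.mk_pow, QuotientGroup.mk_mul, h4,
      QuotientGroup.mk_inv, QuotientGroup.mk_pow, mul_inv_cancel_right] at h2
    rw [QuotientGroup.mk_pow]
    exact h2

end main

end OM1

open OM1 in
theorem om1_thm : S_OM1 := by
  intro p G _ _ hp hp2 ⟨a, ha⟩ x hx hxc
  by_contra hcon
  push Not at hcon
  have hG : IsPGroup p G := IsPGroup.of_card ha
  obtain ⟨n, hn⟩ := exists_top hp hG
  apply hxc
  have key : ∀ m : ℕ, x ∈ (ser G p (m + 1)).1 → x ∈ (ser G p 1).1 := by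
    intro m
    induction m with
    | zero => exact id
    | succ m ih =>
      intro h
      exact ih (step hp hp2 hcon m x h (by rw [hx]; exact one_mem _))
  have h1 : x ∈ (ser G p (n + 1)).1 := ser_mono n (by rw [hn]; trivial)
  exact ((mem_ser_one x).1 (key n h1)).1

end Pool.CND
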