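import Pool.Agent.H37.CNS.Stmts
import Pool.Agent.H54.CNZ.TRS

/-!
# Row REG of the board `cns`: an element without poles is constant
-/

set_option autoImplicit false

namespace Pool.CND

open Polynomial IntermediateField

namespace REG

section

variable {k L : Type} [Field k] [Field L] [Algebra k L]

theorem exists_zero [IsAlgClosed k] (hEXI : S_EXI) (t : L) (ht : Transcendental k t)
    (hfin : Module.Finite (adjoin k {t}) L) (hsep : Algebra.IsSeparable (adjoin k {t}) L) (a : k) :
    ∃ P : Place k L, 0 < P.ord (t - algebraMap k L a) := by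
  have htr0 : Transcendental k (t - algebraMap k L a) := by
    intro hal
    apply ht
    have := hal.add (isAlgebraic_algebraMap (R := k) (A := L) a)
    rwa [sub_add_cancel] at this
  have h0 : t - algebraMap k L a ≠ 0 := fun h1 => htr0 (by rw [h1]; exact isAlgebraic_zero)
  have hE := trs_adjoin_inv t a
  obtain ⟨P, hP⟩ := hEXI k L (t - algebraMap k L a)⁻¹ (fun hal => htr0 (by simpa using hal.inv))
    (by rw [hE]; exact hfin) (by rw [hE]; exact hsep)
  refine ⟨P, ?_⟩
  rw [P.ord_inv h0] at hP
  omega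

theorem aeval_ne (t : L) (ht : Transcendental k t) (p : k[X]) (hp : p ≠ 0) : aeval t p ≠ 0 :=
  fun h => ht ⟨p, hp, h⟩

/-- a fraction without poles is a polynomial -/
theorem rat_poly [IsAlgClosed k] (hEXI : S_EXI) (t : L) (ht : Transcendental k t)
    (hfin : Module.Finite (adjoin k {t}) L) (hsep : Algebra.IsSeparable (adjoin k {t}) L) (x : L)
    (hx : ∀ P : Place k L, P.Ge x 0) (n : ℕ) : ∀ r s : k[X], s.natDegree = n → s ≠ 0 →
    x = aeval t r / aeval t s → ∃ p : k[X], x = aeval t p := by
  induction n using Nat.strong_induction_on with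
  | _ n ih =>
    intro r s hsn hs0 hxr
    by_cases hn : n = 0
    · have h1 := eq_C_of_natDegree_eq_zero (hsn.trans hn)
      refine ⟨C (s.coeff 0)⁻¹ * r, ?_⟩
      rw [hxr, h1, map_mul, aeval_C, aeval_C, map_inv₀, coeff_C_zero]
      ring
    have hd : s.degree ≠ 0 := by
      intro h
      exact hn (hsn.symm.trans (natDegree_eq_of_degree_eq_some h))
    obtain ⟨a, ha⟩ := IsAlgClosed.exists_root s hd
    obtain ⟨s1, hs1⟩ := dvd_iff_isRoot.2 ha
    have hs10 : s1 ≠ 0 := by
      rintro rfl
      rw [mul_zero] at hs1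
      exact hs0 hs1
    have hta : aeval t (X - C a) ≠ (0 : L) := aeval_ne t ht _ (X_sub_C_ne_zero a)
    by_cases hr : r.IsRoot a
    · obtain ⟨r1, hr1⟩ := dvd_iff_isRoot.2 hr
      refine ih s1.natDegree ?_ r1 s1 rfl hs10 ?_
      · rw [← hsn, hs1, natDegree_mul (X_sub_C_ne_zero a) hs10, natDegree_X_sub_C]
        omega
      · rw [hxr, hs1, hr1, map_mul, map_mul, mul_div_mul_left _ _ hta]
    · exfalso
      obtain ⟨P, hP⟩ := exists_zero hEXI t ht hfin hsep a
      have hP1 : P.Ge (t - algebraMap k L a) 1 := Or.inr (by omega)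
      have hPt : P.Ge t 0 := by
        have h2 := P.ge_add (P.ge_mono hP1 zero_le_one) (P.ge_const a)
        rwa [sub_add_cancel] at h2
      have h3 : P.Ge (aeval t s) 1 := by
        rw [hs1, map_mul, map_sub, aeval_X, aeval_C]
        have h2 := P.ge_mul hP1 (trs_poly P t hPt s1)
        rwa [add_zero] at h2
      have h4 : P.Ge (aeval t r) 1 := by
        have h5 : aeval t r = x * aeval t s := by
          rw [hxr, div_mul_cancel₀ _ (aeval_ne t ht s hs0)]
        have h6 := P.ge_mul (hx P) h3
        rw [zero_add] at h6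
        rwa [h5]
      obtain ⟨q, hq⟩ := dvd_iff_isRoot.2 (show (r - C (r.eval a)).IsRoot a by
        rw [IsRoot.def, eval_sub, eval_C, sub_self])
      have h7 : algebraMap k L (r.eval a) = aeval t r - (t - algebraMap k L a) * aeval t q := by
        have h8 := congrArg (aeval t) hq
        rw [map_sub, aeval_C, map_mul, map_sub, aeval_X, aeval_C] at h8
        rw [← h8]
        ring
      have h9 : P.Ge (algebraMap k L (r.eval a)) 1 := by
        rw [h7]
        have h2 := P.ge_mul hP1 (trs_poly P t hPt q)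
        rw [add_zero] at h2
        exact P.ge_sub h4 h2
      have hra : r.eval a ≠ 0 := hr
      rcases h9 with h9 | h9
      · exact hra ((map_eq_zero (algebraMap k L)).1 h9)
      · rw [P.ord_const _ hra] at h9
        omega

/-- the order of a polynomial of degree at most `m` at a pole of `t` -/
theorem ge_poly (P : Place k L) (t : L) (ht0 : t ≠ 0) (hPt : P.ord t < 0) (m : ℕ) (q : k[X])
    (hq : q.natDegree ≤ m) : P.Ge (aeval t q) (m * P.ord t) := by
  rw [aeval_eq_sum_range]
  refine P.ge_sum _ _ _ fun i hi => ?_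
  rw [Algebra.smul_def]
  have h1 : P.Ge (t ^ i) (i * P.ord t) := Or.inr (by rw [P.ord_pow ht0])
  have h2 := P.ge_mul (P.ge_const (q.coeff i)) h1
  rw [zero_add] at h2
  refine P.ge_mono h2 ?_
  have h3 : i ≤ m := by
    have := Finset.mem_range.1 hi
    omega
  have h4 : (i : ℤ) ≤ m := by exact_mod_cast h3
  nlinarith

/-- a polynomial in `t` without pole at a pole of `t` is constant -/
theorem poly_const (P : Place k L) (t : L) (ht0 : t ≠ 0) (hPt : P.ord t < 0) (p : k[X])
    (hp : P.Ge (aeval t p) 0) : p.natDegree = 0 := by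
  by_contra hn
  have hp0 : p ≠ 0 := by
    rintro rfl
    exact hn natDegree_zero
  have h1 := congrArg (aeval t) (eraseLead_add_C_mul_X_pow p)
  rw [map_add, map_mul, aeval_C, map_pow, aeval_X] at h1
  have h2 : algebraMap k L p.leadingCoeff * t ^ p.natDegree = aeval t p - aeval t p.eraseLead := by
    rw [← h1]
    ring
  have h3 := ge_poly P t ht0 hPt (p.natDegree - 1) p.eraseLead (eraseLead_natDegree_le p)
  have h4 : P.Ge (aeval t p) ((p.natDegree - 1 : ℕ) * P.ord t) := P.ge_mono hp (by nlinarith)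
  have h5 := P.ge_sub h4 h3
  rw [← h2] at h5
  have hl : algebraMap k L p.leadingCoeff ≠ 0 := by
    rw [Ne, map_eq_zero]
    exact leadingCoeff_ne_zero.2 hp0
  rcases h5 with h5 | h5
  · exact (mul_ne_zero hl (pow_ne_zero _ ht0)) h5
  · rw [P.ord_mul _ _ hl (pow_ne_zero _ ht0), P.ord_const _ (leadingCoeff_ne_zero.2 hp0),
      P.ord_pow ht0, Nat.cast_sub (by omega), Nat.cast_one] at h5
    nlinarith

/-- an element of `k(t)` without poles is constant -/
theorem rat_const [IsAlgClosed k] (hEXI : S_EXI) (t : L) (ht : Transcendental k t)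
    (hfin : Module.Finite (adjoin k {t}) L) (hsep : Algebra.IsSeparable (adjoin k {t}) L) (x : L)
    (hxt : x ∈ adjoin k {t}) (hx : ∀ P : Place k L, P.Ge x 0) : ∃ c : k, algebraMap k L c = x := by
  have ht0 : t ≠ 0 := by
    rintro rfl
    exact ht isAlgebraic_zero
  obtain ⟨r, s, hrs⟩ := (mem_adjoin_simple_iff k x).1 hxt
  have h1 : ∃ p : k[X], x = aeval t p := by
    by_cases hs : s = 0
    · refine ⟨0, ?_⟩
      rw [hrs, hs, map_zero, div_zero]
    · exact rat_poly hEXI t ht hfin hsep x hx _ r s rfl hs hrs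
  obtain ⟨p, hp⟩ := h1
  obtain ⟨P, hP⟩ := hEXI k L t ht hfin hsep
  have h2 := poly_const P t ht0 hP p (by rw [← hp]; exact hx P)
  refine ⟨p.coeff 0, ?_⟩
  rw [hp, eq_C_of_natDegree_eq_zero h2, aeval_C, coeff_C_zero]

end

end REG

open REG in
theorem reg_thm (hEXI : S_EXI) : S_REG := by
  intro k L G _ _ _ _ _ _ ρ t y h hy
  classical
  cases nonempty_fintype G
  obtain ⟨hfin, hsep⟩ := trs_fin_sep ρ t h
  let F : L[X] := ∏ g : G, (X - C (ρ g y))
  have hFm : F.Monic := monic_prod_of_monic _ _ fun g _ => monic_X_sub_C _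
  have hmap : ∀ g : G, F.map (ρ g : L →+* L) = F := by
    intro g
    show (∏ g' : G, (X - C (ρ g' y))).map (ρ g : L →+* L) = ∏ g' : G, (X - C (ρ g' y))
    rw [Polynomial.map_prod]
    refine Fintype.prod_equiv (Equiv.mulLeft g) _ _ ?_
    intro g'
    rw [Equiv.coe_mulLeft, Polynomial.map_sub, Polynomial.map_X, Polynomial.map_C, map_mul]
    rfl
  have hco : ∀ n, F.coeff n ∈ adjoin k {t} := by
    intro n
    rw [← h.fixed]
    intro g
    have h1 := congrArg (fun q => q.coeff n) (hmap g)
    simp only [coeff_map] at h1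
    exact h1
  have hge : ∀ (P : Place k L) (n : ℕ), P.Ge (F.coeff n) 0 := by
    intro P n
    have h1 : ∀ g : G, P.Ge (ρ g y) 0 := fun g => by
      rcases hy (trs_conj P (ρ g)) with h2 | h2
      · rw [h2, map_zero]
        exact P.ge_zero 0
      · exact Or.inr h2
    have h2 : F ∈ Polynomial.lifts (trs_sub P).subtype := by
      show (∏ g : G, (X - C (ρ g y))) ∈ Polynomial.lifts (trs_sub P).subtype
      refine Subsemiring.prod_mem _ fun g _ => ?_
      rw [Polynomial.mem_lifts]
      refine ⟨X - C ⟨ρ g y, h1 g⟩, ?_⟩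
      rw [Polynomial.map_sub, Polynomial.map_X, Polynomial.map_C]
      rfl
    obtain ⟨z, hz⟩ := (Polynomial.lifts_iff_coeff_lifts F).1 h2 n
    rw [← hz]
    exact z.2
  have hl : F ∈ Polynomial.lifts (algebraMap k L) := by
    rw [Polynomial.lifts_iff_coeff_lifts]
    intro n
    exact rat_const hEXI t h.trans hfin hsep _ (hco n) fun P => hge P n
  obtain ⟨F0, hF0, -, hF0m⟩ := Polynomial.lifts_and_natDegree_eq_and_monic hl hFm
  have hint : IsIntegral k y := by
    refine ⟨F0, hF0m, ?_⟩
    rw [← eval_map, hF0]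
    show (∏ g : G, (X - C (ρ g y))).eval y = 0
    rw [eval_prod]
    refine Finset.prod_eq_zero (Finset.mem_univ 1) ?_
    rw [eval_sub, eval_X, eval_C, map_one, AlgEquiv.one_apply, sub_self]
  obtain ⟨c, hc⟩ := minpoly.mem_range_of_degree_eq_one k y
    (IsAlgClosed.degree_eq_one_of_irreducible k (minpoly.irreducible hint))
  exact ⟨c, hc.symm⟩

end Pool.CND
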